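import Pool.Agent.H72.SklC

set_option autoImplicit false
set_option linter.unusedVariables false
set_option linter.unusedSimpArgs false

namespace Pool.Agent.Results.MP_b32758_al.NotDomain

open Pool.Agent.H72.Skl

variable {k : Type} [Field k]

/-- The generators of the free algebra. -/
def X (i : Fin 4) : FreeAlgebra k (Fin 4) := FreeAlgebra.ι k i

/-- The six defining relations of the Sklyanin algebra. -/
inductive Rel (α β γ : k) : FreeAlgebra k (Fin 4) → FreeAlgebra k (Fin 4) → Prop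
  | c1 : Rel α β γ (X 0 * X 1 - X 1 * X 0) (α • (X 2 * X 3 + X 3 * X 2))
  | c2 : Rel α β γ (X 0 * X 2 - X 2 * X 0) (β • (X 3 * X 1 + X 1 * X 3))
  | c3 : Rel α β γ (X 0 * X 3 - X 3 * X 0) (γ • (X 1 * X 2 + X 2 * X 1))
  | a1 : Rel α β γ (X 0 * X 1 + X 1 * X 0) (X 2 * X 3 - X 3 * X 2)
  | a2 : Rel α β γ (X 0 * X 2 + X 2 * X 0) (X 3 * X 1 - X 1 * X 3)
  | a3 : Rel α β γ (X 0 * X 3 + X 3 * X 0) (X 1 * X 2 - X 2 * X 1)

/-- The 4-dimensional Sklyanin algebra. -/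
abbrev S (α β γ : k) : Type := RingQuot (Rel α β γ)

def x (α β γ : k) (i : Fin 4) : S α β γ := RingQuot.mkAlgHom k (Rel α β γ) (X i)

theorem x_rels (α β γ : k) : Rels α β γ (x α β γ) := by
  constructor
  · simpa [x] using RingQuot.mkAlgHom_rel k (Rel.c1 (α := α) (β := β) (γ := γ))
  · simpa [x] using RingQuot.mkAlgHom_rel k (Rel.c2 (α := α) (β := β) (γ := γ))
  · simpa [x] using RingQuot.mkAlgHom_rel k (Rel.c3 (α := α) (β := β) (γ := γ))
  · simpa [x] using RingQuot.mkAlgHom_rel k (Rel.a1 (α := α) (β := β) (γ := γ))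
  · simpa [x] using RingQuot.mkAlgHom_rel k (Rel.a2 (α := α) (β := β) (γ := γ))
  · simpa [x] using RingQuot.mkAlgHom_rel k (Rel.a3 (α := α) (β := β) (γ := γ))

theorem lift_ok {α β γ : k} {B : Type} [Ring B] [Algebra k B] {y : Fin 4 → B} (h : Rels α β γ y) :
    ∀ ⦃a b⦄, Rel α β γ a b → FreeAlgebra.lift k y a = FreeAlgebra.lift k y b := by
  intro a b hab
  cases hab
  · simpa [X] using h.c1
  · simpa [X] using h.c2
  · simpa [X] using h.c3
  · simpa [X] using h.a1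
  · simpa [X] using h.a2
  · simpa [X] using h.a3

/-- The algebra map out of the free algebra sending `X i` to `y i`. -/
def ev {B : Type} [Ring B] [Algebra k B] (y : Fin 4 → B) : FreeAlgebra k (Fin 4) →ₐ[k] B :=
  FreeAlgebra.lift k y

/-- The map induced on a quotient. -/
def desc {F B : Type} [Ring F] [Algebra k F] [Ring B] [Algebra k B] {r : F → F → Prop}
    (φ : F →ₐ[k] B) (h : ∀ ⦃a b⦄, r a b → φ a = φ b) : RingQuot r →ₐ[k] B :=
  RingQuot.liftAlgHom k ⟨φ, h⟩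

/-- The algebra map `S → B` sending `x i` to `y i`, for `y` satisfying the relations. -/
def lift {α β γ : k} {B : Type} [Ring B] [Algebra k B] (y : Fin 4 → B) (h : Rels α β γ y) :
    S α β γ →ₐ[k] B := desc (ev y) (lift_ok h)

/-- `g₁` fixes `x₀, x₁` and negates `x₂, x₃`. -/
def g₁ (α β γ : k) : S α β γ →ₐ[k] S α β γ :=
  lift ![x α β γ 0, x α β γ 1, -x α β γ 2, -x α β γ 3] (sign1 (x_rels α β γ))

/-- `g₂` fixes `x₀, x₂` and negates `x₁, x₃`. -/
def g₂ (α β γ : k) : S α β γ →ₐ[k] S α β γ :=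
  lift ![x α β γ 0, -x α β γ 1, x α β γ 2, -x α β γ 3] (sign2 (x_rels α β γ))

/-- The matrices `M` over `B` with `P * g M * P = M`, for an involution `P`. -/
def fixedBy {B : Type} [Ring B] [Algebra k B] (g : B →ₐ[k] B) (P : Matrix (Fin 2) (Fin 2) B)
    (hP : P * P = 1) : Subring (Matrix (Fin 2) (Fin 2) B) where
  carrier := {M | P * M.map g * P = M}
  mul_mem' {M N} hM hN := by
    simp only [Set.mem_ofPred_eq] at *
    calc P * (M * N).map g * P = (P * M.map g * P) * (P * N.map g * P) := by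
          rw [Matrix.map_mul]
          calc P * (M.map g * N.map g) * P = P * M.map g * (P * P) * N.map g * P := by
                rw [hP]; simp only [mul_one, mul_assoc]
            _ = _ := by simp only [mul_assoc]
      _ = M * N := by rw [hM, hN]
  one_mem' := by
    simp only [Set.mem_ofPred_eq]
    rw [Matrix.map_one _ (map_zero g) (map_one g), mul_one, hP]
  add_mem' {M N} hM hN := by
    simp only [Set.mem_ofPred_eq] at *
    rw [Matrix.map_add _ (map_add g), mul_add, add_mul, hM, hN]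
  zero_mem' := by
    simp only [Set.mem_ofPred_eq]
    rw [Matrix.map_zero _ (map_zero g), mul_zero, zero_mul]
  neg_mem' {M} hM := by
    simp only [Set.mem_ofPred_eq] at *
    rw [Matrix.map_neg _ (map_neg g), mul_neg, neg_mul, hM]

/-- The twist `A = M₂(S)^{K₄}`. -/
def A (α β γ : k) : Subring (Matrix (Fin 2) (Fin 2) (S α β γ)) :=
  fixedBy (g₁ α β γ) !![1, 0; 0, -1] D_sq ⊓
    fixedBy (g₂ α β γ) !![0, 1; 1, 0] P_sq

theorem lift_x {α β γ : k} {B : Type} [Ring B] [Algebra k B] {y : Fin 4 → B} (h : Rels α β γ y)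
    (i : Fin 4) : lift y h (x α β γ i) = y i := by
  simp [x, X, lift, desc, ev]

/-- The quotient of `R` by the two-sided ideal generated by `ω` has nonzero zero-divisors. -/
def ZeroDivMod {R : Type} [Ring R] (ω : R) : Prop :=
  ∃ u v : (TwoSidedIdeal.span {ω}).ringCon.Quotient, u ≠ 0 ∧ v ≠ 0 ∧ u * v = 0

/-- `Ω` is a nonzero central element lying in the span of the products `y r * y s`. -/
def CentralQuad (k : Type) [Field k] {B : Type} [Ring B] [Algebra k B] (y : Fin 4 → B) (Ω : B) : Prop :=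
  Ω ≠ 0 ∧ Ω ∈ Subring.center B ∧
    Ω ∈ Submodule.span k (Set.range fun p : Fin 4 × Fin 4 => y p.1 * y p.2)

/-- The scalar matrix `Ω` lies in `A` and `A/(Ω)` has nonzero zero-divisors. -/
def Concl {B : Type} [Ring B] (A : Subring (Matrix (Fin 2) (Fin 2) B)) (Ω : B) : Prop :=
  ∃ ω : A, (ω : Matrix (Fin 2) (Fin 2) B) = Matrix.scalar (Fin 2) Ω ∧ ZeroDivMod ω

theorem U_mem (α β γ : k) (a : Fin 4 → k) : U (x α β γ) a ∈ A α β γ :=
  ⟨U_fix1 _ _ (fun i => lift_x (sign1 (x_rels α β γ)) i) a,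
    U_fix2 _ _ (fun i => lift_x (sign2 (x_rels α β γ)) i) a⟩

theorem result (k : Type) [Field k] [IsAlgClosed k] [CharZero k] (α β γ : k)
    (h : α + β + γ + α * β * γ = 0) (hne : ∀ t ∈ ({α, β, γ} : Set k), t ≠ 0 ∧ t ≠ 1 ∧ t ≠ -1)
    (Ω : S α β γ) (hΩ : CentralQuad k (x α β γ) Ω) : Concl (A α β γ) Ω := by
  obtain ⟨hΩ0, hΩc, hΩ2⟩ := hΩ
  obtain ⟨hα0, hα1, hα2⟩ := hne α (by simp)
  obtain ⟨hβ0, hβ1, hβ2⟩ := hne β (by simp)
  obtain ⟨hγ0, hγ1, hγ2⟩ := hne γ (by simp)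
  replace hα1 : 1 - α ≠ 0 := sub_ne_zero.2 hα1.symm
  replace hβ1 : 1 - β ≠ 0 := sub_ne_zero.2 hβ1.symm
  replace hγ1 : 1 - γ ≠ 0 := sub_ne_zero.2 hγ1.symm
  replace hα2 : 1 + α ≠ 0 := fun e => hα2 (by linear_combination e)
  replace hβ2 : 1 + β ≠ 0 := fun e => hβ2 (by linear_combination e)
  replace hγ2 : 1 + γ ≠ 0 := fun e => hγ2 (by linear_combination e)
  obtain ⟨d, f, g, rfl⟩ := exists_quad (x_rels α β γ) hΩ2
  obtain ⟨rfl, rfl, c1, c2, d0, d1, d2, d3⟩ := centre_coeffs h hα0 hβ0 hγ0 hα1 hβ1 hγ1 hα2 hβ2 hγ2 d f g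
    (fun t ht u => by
      have := congrArg (lift (act t) ht)
        (Subring.mem_center_iff.1 hΩc (x α β γ u))
      simp only [map_mul, map_quad, lift_x ht] at this
      exact this.symm)
  obtain rfl : d = ![-c1, c1 + (1-β)*(1+γ)*c2, c1 + (1+α)*(1+γ)*c2, c1 + (1-α)*(1-β)*c2] := by
    ext i; fin_cases i
    · exact d0
    · exact d1
    · exact d2
    · exact d3
  have hc : c1 ≠ 0 ∨ c2 ≠ 0 := by
    by_contra hcon
    push Not at hcon
    apply hΩ0
    simp [quad, hcon.1, hcon.2]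
  obtain ⟨m0, l1, l2, m3, n, a, b, ha, hb, hab⟩ := exists_ab ((1-β)*(1+γ)) ((1+α)*(1+γ)) ((1-α)*(1-β))
    c1 c2 (mul_ne_zero hβ1 hγ2)
    (by
      have : (1+α)*(1+γ) + (1-α)*(1-β) - (1-β)*(1+γ) = (1+α)*((1+β)*(1+γ)) := by
        linear_combination -h
      rw [this]; exact mul_ne_zero hα2 (mul_ne_zero hβ2 hγ2))
    (by
      have : (1-α)*(1-β) + (1-β)*(1+γ) - (1+α)*(1+γ) = (1-α)*((1-β)*(1+γ)) := by
        linear_combination -h
      rw [this]; exact mul_ne_zero hα1 (mul_ne_zero hβ1 hγ2))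
    (by
      have : (1-β)*(1+γ) + (1+α)*(1+γ) - (1-α)*(1-β) = (1+α)*((1-β)*(1+γ)) := by
        linear_combination h
      rw [this]; exact mul_ne_zero hα2 (mul_ne_zero hβ1 hγ2)) hc
  have hUV := U_mul (x_rels α β γ) _ _ _ c1 c2 m0 l1 l2 m3 n (by linear_combination h)
    (by linear_combination -h) (by linear_combination -h) a b hab
  set Ω := quad (x α β γ) ![-c1, c1 + (1-β)*(1+γ)*c2, c1 + (1+α)*(1+γ)*c2, c1 + (1-α)*(1-β)*c2]
    (0 : Fin 3 → k) 0 with hΩ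
  have hg1 : g₁ α β γ Ω = Ω := quad_fix1 _ _ (fun i => lift_x (sign1 (x_rels α β γ)) i) _
  have hg2 : g₂ α β γ Ω = Ω := quad_fix2 _ _ (fun i => lift_x (sign2 (x_rels α β γ)) i) _
  have hmem : ∀ z : S α β γ, g₁ α β γ z = z → g₂ α β γ z = z →
      Matrix.scalar (Fin 2) z ∈ A α β γ := fun z z1 z2 => ⟨sc_fix1 _ z z1, sc_fix2 _ z z2⟩
  refine ⟨⟨_, hmem Ω hg1 hg2⟩, rfl, ?_⟩
  set ω : A α β γ := ⟨_, hmem Ω hg1 hg2⟩ with hω
  let ρ := lift (act (0 : Fin 4 → Fin 4 → Fin 4 → k)) (zero_rels α β γ)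
  let ψ : A α β γ →+* Matrix (Fin 2) (Fin 2) (Module.End k (M k)) :=
    (ρ.toRingHom.mapMatrix).comp (A α β γ).subtype
  have hker : TwoSidedIdeal.span {ω} ≤ TwoSidedIdeal.ker ψ := by
    rw [TwoSidedIdeal.span_le]
    rintro _ rfl
    have hρ : ρ Ω = 0 := by
      rw [hΩ, map_quad]
      simp only [ρ, lift_x (zero_rels α β γ)]
      exact quad_zero _ _ _
    show ω ∈ TwoSidedIdeal.ker ψ
    rw [TwoSidedIdeal.mem_ker]
    exact sc_map ρ Ω hρ
  have hnz : ∀ c : Fin 4 → k, c ≠ 0 →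
      ((⟨U (x α β γ) c, U_mem α β γ c⟩ : A α β γ) : (TwoSidedIdeal.span {ω}).ringCon.Quotient) ≠ 0 := by
    intro c hc0 hz
    apply hc0
    apply U_eq_zero
    have h1 : (⟨U (x α β γ) c, U_mem α β γ c⟩ : A α β γ) ∈ TwoSidedIdeal.span {ω} := by
      rw [TwoSidedIdeal.mem_iff]
      exact (RingCon.eq _).1 hz
    have h2 := (TwoSidedIdeal.mem_ker _).1 (hker h1)
    have h3 : (U (x α β γ) c).map ρ = 0 := h2
    rw [map_U] at h3
    simpa only [ρ, lift_x (zero_rels α β γ)] using h3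
  refine ⟨_, _, hnz a ha, hnz b hb, ?_⟩
  rw [← RingCon.coe_mul, ← RingCon.coe_zero, RingCon.eq, ← TwoSidedIdeal.mem_iff]
  have : (⟨U (x α β γ) a, U_mem α β γ a⟩ : A α β γ) * ⟨U (x α β γ) b, U_mem α β γ b⟩ =
      ⟨_, hmem (algebraMap k _ n) (AlgHom.commutes _ n) (AlgHom.commutes _ n)⟩ * ω := by
    apply Subtype.ext
    show U (x α β γ) a * U (x α β γ) b = Matrix.scalar (Fin 2) _ * Matrix.scalar (Fin 2) Ω
    rw [hUV, sc_smul]
  rw [this]
  exact TwoSidedIdeal.mul_mem_left _ _ _ (TwoSidedIdeal.subset_span rfl)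

end Pool.Agent.Results.MP_b32758_al.NotDomain
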